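import Pool.Agent.LibDL68.LA

/-! From tensors to endomorphisms, through a perfect pairing. -/

open TensorProduct

namespace Pool.Agent.LibDL68.LA

variable {K H H' : Type*} [Field K] [AddCommGroup H] [Module K H] [AddCommGroup H'] [Module K H']

/-- `a ⊗ b ↦ (x ↦ B x b • a)` -/
noncomputable def Psi (B : H →ₗ[K] H' →ₗ[K] K) : H ⊗[K] H' →ₗ[K] Module.End K H :=
  (dualTensorHom K H H) ∘ₗ (TensorProduct.map B.flip LinearMap.id) ∘ₗ
    (TensorProduct.comm K H H').toLinearMap

theorem Psi_tmul (B : H →ₗ[K] H' →ₗ[K] K) (a : H) (b : H') (x : H) :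
    Psi B (a ⊗ₜ b) x = B x b • a := by
  simp [Psi]

theorem Psi_bij [FiniteDimensional K H] (B : H →ₗ[K] H' →ₗ[K] K)
    (hB : Function.Bijective B.flip) : Function.Bijective (Psi B) := by
  have h1 : Function.Bijective (dualTensorHom K H H) := (dualTensorHomEquiv K H H).bijective
  have h2 : Function.Bijective (TensorProduct.map B.flip (LinearMap.id : H →ₗ[K] H)) := by
    have := (TensorProduct.congr (LinearEquiv.ofBijective B.flip hB)
      (LinearEquiv.refl K H)).bijective
    exact this
  have h3 := (TensorProduct.comm K H H').bijective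
  exact (h1.comp h2).comp h3

/-- The criterion in terms of tensors. -/
theorem semisimple_of_tensor [CharZero K] [FiniteDimensional K H]
    (B : H →ₗ[K] H' →ₗ[K] K) (hB : Function.Bijective B) (hB' : Function.Bijective B.flip)
    {Γ : Type*} [Group Γ] [Finite Γ] (r : Γ →* Module.End K H) (r' : Γ → Module.End K H')
    (hr : ∀ g x y, B (r g x) (r' g y) = B x y)
    (F : Module.End K H) (F' : Module.End K H') (c : K) (hc : c ≠ 0)
    (hF : ∀ x y, B (F x) (F' y) = c * B x y) (hrF : ∀ g, Commute (r g) F)
    (h : ∀ t : H ⊗[K] H', (∀ g, TensorProduct.map (r g) (r' g) t = t) →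
      TensorProduct.map F F' (TensorProduct.map F F' t - c • t) -
        c • (TensorProduct.map F F' t - c • t) = 0 → TensorProduct.map F F' t - c • t = 0) :
    F.IsSemisimple := by
  have hinj : Function.Injective F := by
    rw [injective_iff_map_eq_zero]
    intro x hx
    apply hB.1
    rw [map_zero]
    ext y
    have := hF x y
    rw [hx, map_zero, LinearMap.zero_apply] at this
    rw [LinearMap.zero_apply]
    exact (mul_eq_zero.1 this.symm).resolve_left hc
  have hsurj : Function.Surjective F := LinearMap.surjective_of_injective hinj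
  have hrsurj : ∀ g, Function.Surjective (r g) := by
    intro g x
    refine ⟨r g⁻¹ x, ?_⟩
    rw [← Module.End.mul_apply, ← map_mul, mul_inv_cancel, map_one]; rfl
  have hΨ := Psi_bij B hB'
  -- equivariance of Psi
  have e1 : ∀ t, ∀ x, Psi B (TensorProduct.map F F' t) (F x) = c • F (Psi B t x) := by
    intro t x
    induction t with
    | zero => simp
    | add a b ha hb => simp only [map_add, LinearMap.add_apply, ha, hb, smul_add]
    | tmul a b =>
      rw [TensorProduct.map_tmul, Psi_tmul, Psi_tmul, hF, map_smul, smul_smul]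
  have e2 : ∀ g t, ∀ x, Psi B (TensorProduct.map (r g) (r' g) t) (r g x) = r g (Psi B t x) := by
    intro g t x
    induction t with
    | zero => simp
    | add a b ha hb => simp only [map_add, LinearMap.add_apply, ha, hb]
    | tmul a b =>
      rw [TensorProduct.map_tmul, Psi_tmul, Psi_tmul, hr, map_smul]
  have e3 : ∀ t, ∀ x, Psi B (TensorProduct.map F F' t - c • t) (F x) =
      c • (F (Psi B t x) - Psi B t (F x)) := by
    intro t x
    rw [map_sub, map_smul, LinearMap.sub_apply, LinearMap.smul_apply, e1, smul_sub]
  refine semisimple_of_commutant r F hrF fun φ hφ hφ2 => ?_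
  obtain ⟨t, rfl⟩ := hΨ.2 φ
  have htinv : ∀ g, TensorProduct.map (r g) (r' g) t = t := by
    intro g
    apply hΨ.1
    refine LinearMap.ext fun y => ?_
    obtain ⟨x, rfl⟩ := hrsurj g y
    rw [e2]
    exact congrArg (fun f : Module.End K H => f x) (hφ g).eq
  have hA2 : TensorProduct.map F F' (TensorProduct.map F F' t - c • t) -
        c • (TensorProduct.map F F' t - c • t) = 0 := by
    apply hΨ.1
    rw [map_zero]
    refine LinearMap.ext fun y => ?_
    obtain ⟨y, rfl⟩ := hsurj y
    obtain ⟨y, rfl⟩ := hsurj y
    rw [e3 (TensorProduct.map F F' t - c • t) (F y), e3 t y, e3 t (F y), map_smul,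
      ← smul_sub, map_sub, LinearMap.zero_apply]
    have h2 := congrArg (fun f : Module.End K H => f y) hφ2
    simp only [LinearMap.sub_apply, Module.End.mul_apply, LinearMap.zero_apply, map_sub] at h2
    rw [h2, smul_zero, smul_zero]
  have hA := h t htinv hA2
  refine LinearMap.ext fun x => ?_
  have e4 := e3 t x
  rw [hA, map_zero, LinearMap.zero_apply] at e4
  have := (smul_eq_zero.1 e4.symm).resolve_left hc
  simpa using this

end Pool.Agent.LibDL68.LA
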