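import Pool.Agent.LibDL68.Defs
import Pool.Agent.LibDL68.Old.Main

/-! Bridge from the theory of functions of `Defs.lean` to the theory of linear maps of
`Old/Defs.lean`. -/

open CategoryTheory AlgebraicGeometry MonoidalCategory CartesianMonoidalCategory
open scoped TensorProduct

namespace Pool.Agent.LibDL68

variable {k : Type} [Field k]

theorem old_isVar {X : Sch k} (h : IsVar X) : Old.IsVar X := ⟨h.sep, h.ft, h.qc⟩
theorem new_isVar {X : Sch k} (h : Old.IsVar X) : IsVar X := ⟨h.sep, h.ft, h.qc⟩

theorem inImage_iff {X Y : Sch k} (f : Mor X Y) (y : Pts Y) :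
    InImage f y ↔ y ∈ Set.range f.left := Iff.rfl

theorem new_openClosed {Z X U : Sch k} {i : Z ⟶ X} {j : U ⟶ X} (h : Old.OpenClosed i j) :
    OpenClosed i j := by
  refine ⟨h.closed, h.opn, fun x => ?_⟩
  rw [inImage_iff, inImage_iff, h.compl]; rfl

theorem old_openClosed {Z X U : Sch k} {i : Z ⟶ X} {j : U ⟶ X} (h : OpenClosed i j) :
    Old.OpenClosed i j := by
  refine ⟨h.closed, h.opn, ?_⟩
  ext x
  exact h.compl x

theorem new_cell {d : ℕ} {X : Sch k} (h : Old.Cell d X) : Cell d X := by
  induction h with
  | point X h => exact .point X h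
  | line d X Y _ e ih => exact .line d X Y ih e
  | torus d X U s j _ h1 h2 ih => exact .torus d X U s j ih h1 (new_openClosed h2)

theorem old_cell {d : ℕ} {X : Sch k} (h : Cell d X) : Old.Cell d X := by
  induction h with
  | point X h => exact .point X h
  | line d X Y _ e ih => exact .line d X Y ih e
  | torus d X U s j _ h1 h2 ih => exact .torus d X U s j ih h1 (old_openClosed h2)

theorem old_linear {X : Sch k} (h : Linear X) : Old.Linear X := by
  induction h with
  | empty X h => exact .empty X h
  | step d Z X U i j h1 _ h3 ih => exact .step d Z X U i j (old_openClosed h1) ih (old_cell h3)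

/-- the old form of an action -/
noncomputable def Act.toAut {Γ : Type} [Group Γ] {X : Sch k} (ρ : Act Γ X) : Γ →* Aut X where
  toFun g := ⟨ρ.mor g, ρ.mor g⁻¹, by
    have h := ρ.mul g⁻¹ g
    rw [inv_mul_cancel, ρ.one] at h
    exact h.symm, by
    have h := ρ.mul g g⁻¹
    rw [mul_inv_cancel, ρ.one] at h
    exact h.symm⟩
  map_one' := by
    apply Iso.ext
    exact ρ.one
  map_mul' g h := by
    apply Iso.ext
    exact ρ.mul g h

/-- the new form of an action -/
noncomputable def ofAut {Γ : Type} [Group Γ] {X : Sch k} (ρ : Γ →* Aut X) : Act Γ X where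
  mor g := (ρ g).hom
  one := by rw [map_one]; rfl
  mul g h := by rw [map_mul]; rfl

theorem new_isQuotient {Γ : Type} [Group Γ] {Y Q : Sch k} {ρ : Γ →* Aut Y} {π : Y ⟶ Q}
    (h : Old.IsQuotient ρ π) : IsQuotient (ofAut ρ) π := by
  refine ⟨h.finite, ?_, h.inv, ?_⟩
  · intro y
    have := h.surj
    obtain ⟨x, hx⟩ := π.left.surjective y
    exact ⟨x, hx⟩
  · intro Ω _ _ a b hab
    exact h.trans Ω a b hab

theorem old_isQuotient {Γ : Type} [Group Γ] {Y Q : Sch k} {ρ : Act Γ Y} {π : Y ⟶ Q}
    (h : IsQuotient ρ π) : Old.IsQuotient ρ.toAut π := by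
  refine ⟨h.finite, ⟨fun y => ?_⟩, h.inv, ?_⟩
  · obtain ⟨x, hx⟩ := h.surj y
    exact ⟨x, hx⟩
  · intro Ω _ _ a b hab
    exact h.trans Ω a b hab

variable {K : Type} [Field K] (T : CohTheory k K)

/-- bilinear form of the cross product -/
noncomputable def crossL (X Y : Sch k) (i j : ℕ) :
    TensorProduct K (T.H X i) (T.H Y j) →ₗ[K] T.H (X ⊗ Y) (i + j) :=
  TensorProduct.lift (LinearMap.mk₂ K (fun x y => T.cross x y)
    (fun x x' y => (T.additive.left X Y i j y).map_add x x')
    (fun c x y => (T.additive.left X Y i j y).map_smul c x)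
    (fun x y y' => (T.additive.right X Y i j x).map_add y y')
    (fun c x y => (T.additive.right X Y i j x).map_smul c y))

theorem crossL_tmul (X Y : Sch k) (i j : ℕ) (x : T.H X i) (y : T.H Y j) :
    crossL T X Y i j (x ⊗ₜ y) = T.cross x y := by
  simp [crossL]

theorem exists_sum_basis {A B : Type} [AddCommGroup A] [Module K A] [AddCommGroup B] [Module K B]
    {n : ℕ} (b : Module.Basis (Fin n) K B) (t : TensorProduct K A B) :
    ∃ x : Fin n → A, t = ∑ s, x s ⊗ₜ[K] b s := by
  induction t with
  | zero => exact ⟨fun _ => 0, by simp⟩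
  | add t u ht hu =>
    obtain ⟨x, hx⟩ := ht
    obtain ⟨y, hy⟩ := hu
    refine ⟨fun s => x s + y s, ?_⟩
    rw [hx, hy, ← Finset.sum_add_distrib]
    exact Finset.sum_congr rfl fun s _ => (TensorProduct.add_tmul _ _ _).symm
  | tmul x y =>
    refine ⟨fun s => b.repr y s • x, ?_⟩
    conv_lhs => rw [← b.sum_repr y]
    rw [TensorProduct.tmul_sum]
    exact Finset.sum_congr rfl fun s _ => by rw [TensorProduct.tmul_smul, TensorProduct.smul_tmul']

theorem crossL_inj (X Y : Sch k) (hX : IsVar X) (hY : IsVar Y) (i j : ℕ) :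
    Function.Injective (crossL T X Y i j) := by
  rw [injective_iff_map_eq_zero]
  intro t ht
  have hfin := T.points.finite Y j
  let b := Module.finBasis K (T.H Y j)
  obtain ⟨x, hx⟩ := exists_sum_basis b t
  rw [hx, map_sum] at ht
  simp only [crossL_tmul] at ht
  have := T.crossed.inj X Y i j _ x b b.linearIndependent ht
  rw [hx]
  simp [this]

/-- The old theory of a new one. -/
noncomputable def toOld : Old.CohTheory k K where
  H := T.H
  instAdd := T.instAdd
  instMod := T.instMod
  F X i := T.frob X i
  pull {X Y} f _ i := IsLinearMap.mk' (T.pull f) (T.additive.pull X Y f i)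
  push {U X} j _ i := IsLinearMap.mk' (T.push j) (T.additive.push U X j i)
  bd {Z X U} i j _ n := IsLinearMap.mk' (T.bd i j) (T.additive.bd Z X U i j n)
  cross X Y i j := crossL T X Y i j
  functorial := {
    pull_F := fun f hf i y => T.functorial.pull_F f i y hf
    pull_id := fun X _ i x => T.functorial.pull_id X i x
    pull_comp := fun f g hf hg _ i z => T.functorial.pull_comp f g i z hf hg
    push_F := fun j hj i u => T.functorial.push_F j i u hj
    bd_F := fun i j h n z => T.functorial.bd_F i j n z (new_openClosed h) }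
  exact := {
    mid := fun {Z X U} i j h hX hi n x hx =>
      @CohData.Exact.mid _ _ _ _ _ T.exact Z X U i j (new_isVar hX) n x (new_openClosed h) hx
    opn := fun {Z X U} i j h hX n u hu =>
      @CohData.Exact.opn _ _ _ _ _ T.exact Z X U i j (new_isVar hX) n u (new_openClosed h) hu
    zero := fun {Z X U} i j h hX u hu =>
      @CohData.Exact.zero _ _ _ _ _ T.exact Z X U i j (new_isVar hX) u (new_openClosed h) hu }
  points := {
    finite := fun X hX i => @CohData.Points.finite _ _ _ _ _ T.points X (new_isVar hX) i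
    empty := fun X i h => T.points.empty X i h
    point_pos := fun X i h => T.points.pos X i h
    point_F := fun X x h => T.points.frob X x h }
  lines := {
    zero := fun X hX => @CohData.Lines.zero _ _ _ _ _ T.lines X (new_isVar hX)
    one := fun X hX => @CohData.Lines.one _ _ _ _ _ T.lines X (new_isVar hX)
    iso := fun X hX i => by
      obtain ⟨e, he1, he2, he3⟩ :=
        @CohData.Lines.iso _ _ _ _ _ T.lines X (new_isVar hX) i
      exact ⟨LinearEquiv.ofBijective (IsLinearMap.mk' e he1) he2, he3⟩ }
  tr := by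
    intro U X j hj hX d hU
    have := new_isVar hX
    obtain ⟨tr, h1, h2, h3⟩ := T.trace j d hj (new_cell hU)
    exact ⟨IsLinearMap.mk' tr h1, h2, h3⟩
  quot := by
    intro Γ _ _ Y Q hQ ρ π hπ h i
    have := new_isVar hQ
    obtain ⟨h1, h2⟩ := T.quotient (ofAut ρ) π i (new_isQuotient h)
    refine ⟨?_, fun y hy => ?_⟩
    · rw [injective_iff_map_eq_zero]
      exact h1
    · exact h2 y fun g => hy g inferInstance
  crs := {
    inj := fun X Y hX hY i j => crossL_inj T X Y (new_isVar hX) (new_isVar hY) i j
    frob := fun X Y hX hY i j x y => by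
      have h1 := new_isVar hX
      have h2 := new_isVar hY
      rw [crossL_tmul, crossL_tmul]
      exact T.crossed.frob X Y i j x y
    aut := fun X Y hX hY i j x y f g hf hg hfg => by
      have h1 := new_isVar hX
      have h2 := new_isVar hY
      show T.pull _ (crossL T X Y i j _) = _
      rw [crossL_tmul, crossL_tmul]
      exact T.crossed.pull X Y i j x y f.hom g.hom hf hg }
  dual := by
    intro V n hV hVn i j hij
    obtain ⟨B, h1, h2, h3, h4, h5, h6⟩ := T.duality V n hV hVn i j hij
    have hVv : IsVar V := new_isVar (Old.isVar_of_proper V hV)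
    have hfi : FiniteDimensional K (T.H V i) := T.points.finite V i
    have hfj : FiniteDimensional K (T.H V j) := T.points.finite V j
    let C : T.H V i →ₗ[K] T.H V j →ₗ[K] K := LinearMap.mk₂ K B
      (fun x x' y => (h1 y).map_add x x') (fun c x y => (h1 y).map_smul c x)
      (fun x y y' => (h2 x).map_add y y') (fun c x y => (h2 x).map_smul c y)
    have hC : ∀ x y, C x y = B x y := fun x y => rfl
    have i1 : Function.Injective C := by
      rw [injective_iff_map_eq_zero]
      intro x hx
      exact h3 x fun y => by rw [← hC, hx]; rfl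
    have i2 : Function.Injective C.flip := by
      rw [injective_iff_map_eq_zero]
      intro y hy
      refine h4 y fun x => ?_
      have : C.flip y x = 0 := by rw [hy]; rfl
      exact this
    have d1 : Module.finrank K (T.H V i) ≤ Module.finrank K (T.H V j) := by
      have := LinearMap.finrank_le_finrank_of_injective i1
      rwa [Subspace.dual_finrank_eq] at this
    have d2 : Module.finrank K (T.H V j) ≤ Module.finrank K (T.H V i) := by
      have := LinearMap.finrank_le_finrank_of_injective i2
      rwa [Subspace.dual_finrank_eq] at this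
    have d3 := le_antisymm d1 d2
    have b1 : Function.Bijective C := by
      refine ⟨i1, ?_⟩
      refine (LinearMap.injective_iff_surjective_of_finrank_eq_finrank ?_).1 i1
      rw [Subspace.dual_finrank_eq, d3]
    have b2 : Function.Bijective C.flip := by
      refine ⟨i2, ?_⟩
      refine (LinearMap.injective_iff_surjective_of_finrank_eq_finrank ?_).1 i2
      rw [Subspace.dual_finrank_eq, d3]
    exact ⟨C, b1, b2, h5, fun g hg x y => h6 g.hom x y inferInstance⟩
  fund := by
    intro W d hW h1 h2
    have := new_isVar hW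
    obtain ⟨w, h3, h4, h5⟩ := T.top W d h1 h2
    exact ⟨w, h3, h4, fun g _ => h5 g.hom inferInstance⟩

theorem main [Finite k] [CharZero K] (V W Q : Sch k) (n d : ℕ) (hV : IsComplete V)
    (hVn : IsSmoothDim n V) (hWv : IsVar W) (hW : IsSmoothDim d W)
    (hWg : IsGeomIrred W) {Γ : Type} [Group Γ] [Finite Γ] (ρ : Act Γ V)
    (σ : Act Γ W) (τ : Act Γ (Prd (Prd V V) W)) (hτ : IsDiag ρ σ τ) (hQv : IsVar Q)
    (π : Mor (Prd (Prd V V) W) Q) (hπ : IsQuotient τ π) (hQ : Linear Q) (i : ℕ)
    (hi : i ≤ 2 * n) : Module.End.IsSemisimple (T.frob V i) := by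
  have h1 := old_isVar hWv
  have h2 := old_isVar hQv
  exact Old.main (toOld T) V W Q n d hV hVn hW hWg ρ.toAut σ.toAut τ.toAut hτ π
    (old_isQuotient hπ) (old_linear hQ) i (2 * n - i) (by omega)

end Pool.Agent.LibDL68
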