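import Mathlib

/-!
# Cohomology with compact supports of varieties over a finite field

The schemes are schemes of Mathlib over `Spec k`, `k` a finite field.  `CohTheory k K` lists the
formal properties of `X ↦ H_c^i(X ⊗ k̄, K)`, `K = ℚ_ℓ`, with the Frobenius `F`, that are used.
-/

open CategoryTheory AlgebraicGeometry MonoidalCategory CartesianMonoidalCategory

namespace Pool.Agent.LibDL68

/-- Schemes over the field `k`. -/
abbrev Sch (k : Type) [Field k] := Over (Spec (CommRingCat.of k))

variable {k : Type} [Field k]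

/-- Morphisms over `k`. -/
abbrev Mor (X Y : Sch k) : Type := X ⟶ Y

/-- The points of the underlying scheme. -/
abbrev Pts (X : Sch k) : Type := X.left

/-- The product over `k`. -/
noncomputable abbrev Prd (X Y : Sch k) : Sch k := X ⊗ Y

/-- The product of two morphisms. -/
noncomputable abbrev prdMap {X Y X' Y' : Sch k} (f : Mor X X') (g : Mor Y Y') :
    Mor (Prd X Y) (Prd X' Y') := f ⊗ₘ g

/-- Composition: first `f`, then `g`. -/
noncomputable abbrev comp {X Y Z : Sch k} (f : Mor X Y) (g : Mor Y Z) : Mor X Z := f ≫ g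

/-- The identity. -/
noncomputable abbrev idm (X : Sch k) : Mor X X := 𝟙 X

/-- Separated of finite type over `k`. -/
class IsVar (X : Sch k) : Prop where
  sep : IsSeparated X.hom
  ft : LocallyOfFiniteType X.hom
  qc : QuasiCompact X.hom

/-- Proper over `k`. -/
def IsComplete (X : Sch k) : Prop := IsProper X.hom

/-- Smooth over `k`, of pure dimension `n`. -/
def IsSmoothDim (n : ℕ) (X : Sch k) : Prop := SmoothOfRelativeDimension n X.hom

/-- Geometrically irreducible over `k`. -/
def IsGeomIrred (X : Sch k) : Prop := GeometricallyIrreducible X.hom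

/-- `X` is isomorphic to `Spec k`. -/
def IsPoint (X : Sch k) : Prop := IsIso X.hom

/-- Proper morphisms. -/
def Proper {X Y : Sch k} (f : Mor X Y) : Prop := IsProper f.left

/-- Finite morphisms. -/
def FiniteMor {X Y : Sch k} (f : Mor X Y) : Prop := IsFinite f.left

/-- Open immersions. -/
def OpenImm {X Y : Sch k} (f : Mor X Y) : Prop := IsOpenImmersion f.left

/-- Closed immersions. -/
def ClosedImm {X Y : Sch k} (f : Mor X Y) : Prop := IsClosedImmersion f.left

/-- `y` is in the image of `f`. -/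
def InImage {X Y : Sch k} (f : Mor X Y) (y : Pts Y) : Prop := ∃ x : Pts X, f.left x = y

/-- `i : Z ⟶ X` is a closed immersion, `j : U ⟶ X` an open immersion with image the
complement of the image of `i`. -/
structure OpenClosed {Z X U : Sch k} (i : Mor Z X) (j : Mor U X) : Prop where
  closed : ClosedImm i
  opn : OpenImm j
  compl : ∀ x : Pts X, InImage i x ↔ ¬ InImage j x

/-- The affine line over `X`. -/
noncomputable def line (X : Sch k) : Sch k :=
  Over.mk ((𝔸(PUnit.{1}; X.left) ↘ X.left) ≫ X.hom)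

/-- The projection of the affine line over `X` to `X`. -/
noncomputable def lineProj (X : Sch k) : Mor (line X) X :=
  Over.homMk (𝔸(PUnit.{1}; X.left) ↘ X.left)

/-- Cells `𝔸^a × 𝔾_m^b` of dimension `a + b = d`, up to isomorphism: built from `Spec k` by
`X ↦ X × 𝔸¹` and `X ↦ X × 𝔾_m` = the complement of a section `s` of `X × 𝔸¹ ⟶ X`. -/
inductive Cell : ℕ → Sch k → Prop
  | point (X : Sch k) : IsPoint X → Cell 0 X
  | line (d : ℕ) (X Y : Sch k) : Cell d X → Nonempty (Y ≅ line X) → Cell (d + 1) Y
  | torus (d : ℕ) (X U : Sch k) (s : Mor X (line X)) (j : Mor U (line X)) : Cell d X →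
      comp s (lineProj X) = idm X → OpenClosed s j → Cell (d + 1) U

/-- Linear varieties: finite successive unions of a closed linear subvariety and an open cell. -/
inductive Linear : Sch k → Prop
  | empty (X : Sch k) : IsEmpty (Pts X) → Linear X
  | step (d : ℕ) (Z X U : Sch k) (i : Mor Z X) (j : Mor U X) : OpenClosed i j → Linear Z →
      Cell d U → Linear X

/-- An action of the group `Γ` on the `k`-scheme `X`. -/
structure Act (Γ : Type) [Group Γ] (X : Sch k) where
  mor : Γ → Mor X X
  one : mor 1 = idm X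
  mul : ∀ g h, mor (g * h) = comp (mor h) (mor g)

/-- The points of `X` with values in the field `Ω`. -/
abbrev GPt (Ω : Type) [Field Ω] (X : Sch k) : Type := Spec (CommRingCat.of Ω) ⟶ X.left

/-- The image of a point with values in `Ω`. -/
noncomputable def GPt.map {Ω : Type} [Field Ω] {X Y : Sch k} (a : GPt Ω X) (f : Mor X Y) : GPt Ω Y :=
  a ≫ f.left

/-- `π : Y ⟶ Q` is a quotient (up to universal homeomorphism) by the finite group `Γ` acting
on `Y`: finite, surjective, invariant, and `Γ` is transitive on the geometric points of `Y`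
over a geometric point of `Q`. -/
structure IsQuotient {Γ : Type} [Group Γ] {Y Q : Sch k} (ρ : Act Γ Y) (π : Mor Y Q) :
    Prop where
  finite : FiniteMor π
  surj : ∀ y, InImage π y
  inv : ∀ g, comp (ρ.mor g) π = π
  trans : ∀ (Ω : Type) [Field Ω] [IsAlgClosed Ω] (a b : GPt Ω Y), a.map π = b.map π →
    ∃ g, b = a.map (ρ.mor g)

/-- The action `τ` on `V × V × W` is the diagonal one: `τ g = ρ g × ρ g × σ g`. -/
def IsDiag {Γ : Type} [Group Γ] {V W : Sch k} (ρ : Act Γ V) (σ : Act Γ W)
    (τ : Act Γ (Prd (Prd V V) W)) : Prop :=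
  ∀ g, τ.mor g = prdMap (prdMap (ρ.mor g) (ρ.mor g)) (σ.mor g)

/-- The data of a cohomology theory with compact supports: the `K`-spaces
`H X i = H_c^i(X ⊗ k̄, K)`, the Frobenius `F`, pull back along proper morphisms, extension by zero
along open immersions, boundary maps (on other morphisms these maps are not used), and cross
products. -/
structure CohData (k : Type) [Field k] (K : Type) [Field K] where
  /-- `H_c^i(X ⊗ k̄, K)` -/
  H : Sch k → ℕ → Type
  instAdd : ∀ X i, AddCommGroup (H X i)
  instMod : ∀ X i, Module K (H X i)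
  /-- Frobenius -/
  F : ∀ {X : Sch k} {i : ℕ}, H X i → H X i
  /-- pull back along a proper morphism -/
  pull : ∀ {X Y : Sch k}, Mor X Y → ∀ {i : ℕ}, H Y i → H X i
  /-- extension by zero along an open immersion -/
  push : ∀ {U X : Sch k}, Mor U X → ∀ {i : ℕ}, H U i → H X i
  /-- the boundary map of the long exact sequence -/
  bd : ∀ {Z X U : Sch k}, Mor Z X → Mor U X → ∀ {i : ℕ}, H Z i → H U (i + 1)
  /-- cross product -/
  cross : ∀ {X Y : Sch k} {i j : ℕ}, H X i → H Y j → H (Prd X Y) (i + j)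

attribute [instance] CohData.instAdd CohData.instMod

/-- `q = #k` in `K`. -/
noncomputable def qK (k K : Type) [Field K] : K := (Nat.card k : K)

namespace CohData

variable {K : Type} [Field K] (T : CohData k K)

/-- All maps are linear, the cross product is bilinear. -/
structure Additive : Prop where
  F : ∀ (X : Sch k) (i : ℕ), IsLinearMap K (T.F : T.H X i → T.H X i)
  pull : ∀ (X Y : Sch k) (f : Mor X Y) (i : ℕ), IsLinearMap K (T.pull f : T.H Y i → T.H X i)
  push : ∀ (U X : Sch k) (j : Mor U X) (i : ℕ), IsLinearMap K (T.push j : T.H U i → T.H X i)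
  bd : ∀ (Z X U : Sch k) (i : Mor Z X) (j : Mor U X) (n : ℕ),
    IsLinearMap K (T.bd i j : T.H Z n → T.H U (n + 1))
  left : ∀ (X Y : Sch k) (i j : ℕ) (y : T.H Y j), IsLinearMap K fun x : T.H X i => T.cross x y
  right : ∀ (X Y : Sch k) (i j : ℕ) (x : T.H X i), IsLinearMap K fun y : T.H Y j => T.cross x y

/-- Functoriality for proper morphisms; Frobenius commutes with the maps of the theory. -/
structure Functorial : Prop where
  pull_F : ∀ {X Y : Sch k} (f : Mor X Y) (i : ℕ) (y : T.H Y i), Proper f →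
    T.pull f (T.F y) = T.F (T.pull f y)
  pull_id : ∀ (X : Sch k) (i : ℕ) (x : T.H X i), T.pull (idm X) x = x
  pull_comp : ∀ {X Y Z : Sch k} (f : Mor X Y) (g : Mor Y Z) (i : ℕ) (z : T.H Z i), Proper f →
    Proper g → T.pull (comp f g) z = T.pull f (T.pull g z)
  push_F : ∀ {U X : Sch k} (j : Mor U X) (i : ℕ) (u : T.H U i), OpenImm j →
    T.push j (T.F u) = T.F (T.push j u)
  bd_F : ∀ {Z X U : Sch k} (i : Mor Z X) (j : Mor U X) (n : ℕ) (z : T.H Z n), OpenClosed i j →
    T.bd i j (T.F z) = T.F (T.bd i j z)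

/-- The exact sequence `H_c^n(Z) → H_c^(n+1)(U) → H_c^(n+1)(X) → H_c^(n+1)(Z)`, and
`0 → H_c^0(U) → H_c^0(X)`. -/
structure Exact : Prop where
  mid : ∀ {Z X U : Sch k} (i : Mor Z X) (j : Mor U X) [IsVar X] (n : ℕ) (x : T.H X n),
    OpenClosed i j → T.pull i x = 0 → ∃ u, T.push j u = x
  opn : ∀ {Z X U : Sch k} (i : Mor Z X) (j : Mor U X) [IsVar X] (n : ℕ) (u : T.H U (n + 1)),
    OpenClosed i j → T.push j u = 0 → ∃ z, T.bd i j z = u
  zero : ∀ {Z X U : Sch k} (i : Mor Z X) (j : Mor U X) [IsVar X] (u : T.H U 0),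
    OpenClosed i j → T.push j u = 0 → u = 0

/-- Finiteness; the cohomology of the empty scheme and of the point. -/
structure Points : Prop where
  finite : ∀ (X : Sch k) [IsVar X] (i : ℕ), Module.Finite K (T.H X i)
  empty : ∀ (X : Sch k) (i : ℕ), IsEmpty (Pts X) → Subsingleton (T.H X i)
  pos : ∀ (X : Sch k) (i : ℕ), IsPoint X → Subsingleton (T.H X (i + 1))
  frob : ∀ (X : Sch k) (x : T.H X 0), IsPoint X → T.F x = x

/-- `H_c^(i+2)(X × 𝔸¹) = H_c^i(X)(-1)`, and `H_c^0`, `H_c^1` of `X × 𝔸¹` vanish. -/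
structure Lines : Prop where
  zero : ∀ (X : Sch k) [IsVar X], Subsingleton (T.H (line X) 0)
  one : ∀ (X : Sch k) [IsVar X], Subsingleton (T.H (line X) 1)
  iso : ∀ (X : Sch k) [IsVar X] (i : ℕ), ∃ e : T.H X i → T.H (line X) (i + 2),
    IsLinearMap K e ∧ Function.Bijective e ∧ ∀ x, T.F (e x) = qK k K • e (T.F x)

/-- The closure in `X` of an open cell `U` of dimension `d` has a trace map
`H_c^(2d)(X) → K(-d)`, which on `U` is the isomorphism `H_c^(2d)(U) = K(-d)`. -/
def Trace : Prop :=
  ∀ {U X : Sch k} (j : Mor U X) [IsVar X] (d : ℕ), OpenImm j → Cell d U →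
    ∃ tr : T.H X (2 * d) → K, IsLinearMap K tr ∧ (∀ x, tr (T.F x) = qK k K ^ d * tr x) ∧
      ∀ u, tr (T.push j u) = 0 → u = 0

/-- `H_c^i(Y/Γ) = H_c^i(Y)^Γ` for a finite group `Γ`. -/
def Quotient : Prop :=
  ∀ {Γ : Type} [Group Γ] [Finite Γ] {Y Q : Sch k} [IsVar Q] (ρ : Act Γ Y) (π : Mor Y Q) (i : ℕ),
    IsQuotient ρ π → (∀ z : T.H Q i, T.pull π z = 0 → z = 0) ∧
      ∀ y : T.H Y i, (∀ g, T.pull (ρ.mor g) y = y) → ∃ z, T.pull π z = y

/-- The cross product `H_c^i(X) ⊗ H_c^j(Y) → H_c^(i+j)(X × Y)` is injective and compatible with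
Frobenius and with pull back. -/
structure Cross : Prop where
  inj : ∀ (X Y : Sch k) [IsVar X] [IsVar Y] (i j N : ℕ) (x : Fin N → T.H X i)
    (y : Fin N → T.H Y j), LinearIndependent K y → ∑ s, T.cross (x s) (y s) = 0 → ∀ s, x s = 0
  frob : ∀ (X Y : Sch k) [IsVar X] [IsVar Y] (i j : ℕ) (x : T.H X i) (y : T.H Y j),
    T.F (T.cross x y) = T.cross (T.F x) (T.F y)
  pull : ∀ (X Y : Sch k) [IsVar X] [IsVar Y] (i j : ℕ) (x : T.H X i) (y : T.H Y j)
    (f : Mor X X) (g : Mor Y Y), Proper f → Proper g →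
      T.pull (prdMap f g) (T.cross x y) = T.cross (T.pull f x) (T.pull g y)

/-- Poincare duality: a perfect pairing `B` of `H^i(V)` and `H^j(V)`, `i + j = 2n`, for `V` proper
and smooth of pure dimension `n`, with `B(F x, F y) = q^n B(x, y)`, invariant by automorphisms. -/
def Duality : Prop :=
  ∀ (V : Sch k) (n : ℕ), IsComplete V → IsSmoothDim n V → ∀ i j, i + j = 2 * n →
    ∃ B : T.H V i → T.H V j → K, (∀ y, IsLinearMap K fun x => B x y) ∧
      (∀ x, IsLinearMap K (B x)) ∧ (∀ x, (∀ y, B x y = 0) → x = 0) ∧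
      (∀ y, (∀ x, B x y = 0) → y = 0) ∧ (∀ x y, B (T.F x) (T.F y) = qK k K ^ n * B x y) ∧
      ∀ (g : Mor V V) x y, IsIso g → B (T.pull g x) (T.pull g y) = B x y

/-- `H_c^(2d)(W) = K(-d)`, with trivial action of the automorphisms, for `W` smooth and
geometrically irreducible of dimension `d`. -/
def Top : Prop :=
  ∀ (W : Sch k) (d : ℕ) [IsVar W], IsSmoothDim d W → IsGeomIrred W →
    ∃ w : T.H W (2 * d), w ≠ 0 ∧ T.F w = qK k K ^ d • w ∧
      ∀ g : Mor W W, IsIso g → T.pull g w = w

end CohData

/-- The formal properties of `H_c^i(X ⊗ k̄, K)` and of its Frobenius endomorphism `F`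
(`q = #k`) which are used. -/
structure CohTheory (k : Type) [Field k] (K : Type) [Field K] extends CohData k K where
  additive : toCohData.Additive
  functorial : toCohData.Functorial
  exact : toCohData.Exact
  points : toCohData.Points
  lines : toCohData.Lines
  trace : toCohData.Trace
  quotient : toCohData.Quotient
  crossed : toCohData.Cross
  duality : toCohData.Duality
  top : toCohData.Top

/-- Frobenius as a linear map. -/
def CohTheory.frob {K : Type} [Field K] (T : CohTheory k K) (X : Sch k) (i : ℕ) :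
    Module.End K (T.H X i) := IsLinearMap.mk' T.F (T.additive.F X i)

end Pool.Agent.LibDL68
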