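import Mathlib

/-! Linear algebra: a criterion for semisimplicity through the commutant of a finite group. -/

namespace Pool.Agent.LibDL68.LA

variable {K H : Type*} [Field K] [AddCommGroup H] [Module K H]

/-- A semisimple endomorphism `S` and an endomorphism `N` commuting with it: there is `φ`
commuting with `S` with `N φ N = N`. -/
theorem exists_regular [FiniteDimensional K H] (S N : Module.End K H) (hS : S.IsSemisimple)
    (hc : Commute S N) : ∃ φ : Module.End K H, Commute S φ ∧ N * φ * N = N := by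
  have hcx : ∀ x, S (N x) = N (S x) := fun x => congrArg (fun f : Module.End K H => f x) hc.eq
  -- complement of the kernel
  have hker : LinearMap.ker N ∈ S.invtSubmodule := by
    intro x hx
    have hx' : N x = 0 := hx
    show N (S x) = 0
    rw [← hcx, hx', map_zero]
  obtain ⟨C, hC, hCc⟩ := (Module.End.isSemisimple_iff).1 hS _ hker
  have hran : LinearMap.range N ∈ S.invtSubmodule := by
    rintro x ⟨y, rfl⟩
    exact ⟨S y, (hcx y).symm⟩
  obtain ⟨R, hR, hRc⟩ := (Module.End.isSemisimple_iff).1 hS _ hran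
  have hCs : ∀ c ∈ C, S c ∈ C := fun c h => hC h
  have hRs : ∀ c ∈ R, S c ∈ R := fun c h => hR h
  -- `N` is injective on `C`
  have hinj : ∀ c ∈ C, N c = 0 → c = 0 := by
    intro c h1 h2
    exact (Submodule.mem_bot K).1 (hCc.disjoint.le_bot ⟨h2, h1⟩)
  have hsurj : ∀ y, ∃ c ∈ C, N c = N y := by
    intro y
    have : y ∈ LinearMap.ker N ⊔ C := by rw [hCc.sup_eq_top]; trivial
    obtain ⟨a, ha, c, hc', rfl⟩ := Submodule.mem_sup.1 this
    exact ⟨c, hc', by rw [map_add, show N a = 0 from ha, zero_add]⟩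
  -- equivalence of `C` with the range
  let e : C ≃ₗ[K] LinearMap.range N := LinearEquiv.ofBijective
    ((N.domRestrict C).codRestrict (LinearMap.range N) (fun c => ⟨c, rfl⟩))
    ⟨by
      rw [injective_iff_map_eq_zero]
      intro c h
      have : N c = 0 := congrArg Subtype.val h
      exact Subtype.ext (hinj c c.2 this),
     by
      rintro ⟨y, z, rfl⟩
      obtain ⟨c, h1, h2⟩ := hsurj z
      exact ⟨⟨c, h1⟩, Subtype.ext h2⟩⟩
  have he : ∀ c : C, ((e c : LinearMap.range N) : H) = N c := fun c => rfl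
  let pr : H →ₗ[K] LinearMap.range N := Submodule.linearProjOfIsCompl _ _ hRc
  let φ : Module.End K H := C.subtype ∘ₗ e.symm.toLinearMap ∘ₗ pr
  have hφ1 : ∀ c ∈ C, φ (N c) = c := by
    intro c h
    have h1 : pr (N c) = ⟨N c, ⟨c, rfl⟩⟩ := Submodule.linearProjOfIsCompl_apply_left hRc ⟨N c, ⟨c, rfl⟩⟩
    have h2 : e.symm ⟨N c, ⟨c, rfl⟩⟩ = ⟨c, h⟩ := by
      rw [LinearEquiv.symm_apply_eq]
      exact Subtype.ext (he ⟨c, h⟩).symm
    show ((e.symm (pr (N c)) : C) : H) = c
    rw [h1, h2]
  have hφ2 : ∀ r ∈ R, φ r = 0 := by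
    intro r h
    have h1 : pr r = 0 := Submodule.linearProjOfIsCompl_apply_right hRc ⟨r, h⟩
    show ((e.symm (pr r) : C) : H) = 0
    rw [h1, map_zero]; rfl
  refine ⟨φ, ?_, ?_⟩
  · refine LinearMap.ext fun x => ?_
    have : x ∈ LinearMap.range N ⊔ R := by rw [hRc.sup_eq_top]; trivial
    obtain ⟨_, ⟨y, rfl⟩, r, hr, rfl⟩ := Submodule.mem_sup.1 this
    obtain ⟨c, h1, h2⟩ := hsurj y
    show S (φ (N y + r)) = φ (S (N y + r))
    rw [← h2, map_add, map_add, map_add, map_add, hφ1 c h1, hφ2 r hr, hφ2 _ (hRs r hr), hcx,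
      hφ1 _ (hCs c h1), map_zero]
  · refine LinearMap.ext fun x => ?_
    obtain ⟨c, h1, h2⟩ := hsurj x
    show N (φ (N x)) = N x
    rw [← h2, hφ1 c h1]

/-- If every endomorphism `φ` commuting with the finite group with `[F,[F,φ]] = 0` commutes with
`F`, then `F` is semisimple. -/
theorem semisimple_of_commutant [CharZero K] [FiniteDimensional K H] {Γ : Type*} [Group Γ]
    [Finite Γ] (r : Γ →* Module.End K H) (F : Module.End K H) (hF : ∀ g, Commute (r g) F)
    (h : ∀ φ : Module.End K H, (∀ g, Commute (r g) φ) → 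
      F * (F * φ - φ * F) - (F * φ - φ * F) * F = 0 → F * φ - φ * F = 0) :
    F.IsSemisimple := by
  classical
  cases nonempty_fintype Γ
  obtain ⟨N, hN, S, hS, hnil, hss, hFNS⟩ := F.exists_isNilpotent_isSemisimple
  have comm_of_mem : ∀ (A T : Module.End K H), T ∈ Algebra.adjoin K {F} → Commute A F →
      Commute A T := by
    intro A T hT hA
    refine Algebra.adjoin_induction (p := fun T _ => Commute A T) ?_ ?_ ?_ ?_ hT
    · rintro x rfl; exact hA
    · intro c; exact (Algebra.commutes c A).symm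
    · intro x y _ _ hx hy; exact hx.add_right hy
    · intro x y _ _ hx hy; exact hx.mul_right hy
  have hgN : ∀ g, Commute (r g) N := fun g => comm_of_mem _ _ hN (hF g)
  have hgS : ∀ g, Commute (r g) S := fun g => comm_of_mem _ _ hS (hF g)
  have hFN : Commute F N := comm_of_mem _ _ hN (Commute.refl F)
  have hSN : Commute S N := by
    have hNF : Commute N F := hFN.symm
    exact (comm_of_mem _ _ hS hNF).symm
  obtain ⟨φ₀, hφ₀, hreg⟩ := exists_regular S N hss hSN
  have hrinv : ∀ g, r g * r g⁻¹ = 1 := fun g => by rw [← map_mul, mul_inv_cancel, map_one]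
  have hrinv' : ∀ g, r g⁻¹ * r g = 1 := fun g => by rw [← map_mul, inv_mul_cancel, map_one]
  let φ : Module.End K H := (Fintype.card Γ : K)⁻¹ • ∑ g : Γ, r g * φ₀ * r g⁻¹
  have hcard : (Fintype.card Γ : K) ≠ 0 := by
    exact_mod_cast Fintype.card_ne_zero
  have hφg : ∀ g, Commute (r g) φ := by
    intro g
    show r g * φ = φ * r g
    simp only [φ, mul_smul_comm, smul_mul_assoc]
    congr 1
    rw [Finset.mul_sum, Finset.sum_mul]
    refine Fintype.sum_bijective (fun x => g * x) (Group.mulLeft_bijective g) _ _ fun x => ?_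
    have : r (g * x)⁻¹ * r g = r x⁻¹ := by
      rw [← map_mul]; congr 1; group
    rw [mul_assoc (r (g * x) * φ₀), this, map_mul]
    simp only [mul_assoc]
  have hφS : Commute S φ := by
    refine Commute.smul_right ?_ _
    refine Commute.sum_right _ _ _ fun g _ => ?_
    exact ((hgS g).symm.mul_right hφ₀).mul_right (hgS g⁻¹).symm
  have hφN : N * φ * N = N := by
    simp only [φ, mul_smul_comm, smul_mul_assoc]
    have : N * (∑ g : Γ, r g * φ₀ * r g⁻¹) * N = ∑ _g : Γ, N := by
      rw [Finset.mul_sum, Finset.sum_mul]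
      refine Finset.sum_congr rfl fun g _ => ?_
      calc N * (r g * φ₀ * r g⁻¹) * N = (N * r g) * φ₀ * (r g⁻¹ * N) := by
            simp only [mul_assoc]
        _ = (r g * N) * φ₀ * (N * r g⁻¹) := by rw [(hgN g).eq, (hgN g⁻¹).eq]
        _ = r g * (N * φ₀ * N) * r g⁻¹ := by simp only [mul_assoc]
        _ = r g * N * r g⁻¹ := by rw [hreg]
        _ = N * (r g * r g⁻¹) := by rw [(hgN g).eq, mul_assoc]
        _ = N := by rw [hrinv, mul_one]
    rw [this, Finset.sum_const, Finset.card_univ, ← Nat.cast_smul_eq_nsmul K, smul_smul,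
      inv_mul_cancel₀ hcard, one_smul]
  -- iterated commutators
  let ad : Module.End K H → Module.End K H := fun ψ => F * ψ - ψ * F
  have had_g : ∀ m : ℕ, ∀ g, Commute (r g) (ad^[m] φ) := by
    intro m
    induction m with
    | zero => exact hφg
    | succ m ih =>
      intro g
      rw [Function.iterate_succ_apply']
      show Commute (r g) (F * (ad^[m] φ) - (ad^[m] φ) * F)
      exact ((hF g).mul_right (ih g)).sub_right ((ih g).mul_right (hF g))
  have hdesc : ∀ m : ℕ, ad^[m + 1] φ = 0 → ad φ = 0 := by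
    intro m
    induction m with
    | zero => intro h0; simpa using h0
    | succ m ih =>
      intro h0
      apply ih
      rw [Function.iterate_succ_apply']
      apply h _ (had_g m)
      rw [Function.iterate_succ_apply', Function.iterate_succ_apply'] at h0
      exact h0
  obtain ⟨s, hs⟩ := hnil
  let D : Module.End K (Module.End K H) := LinearMap.mulLeft K N - LinearMap.mulRight K N
  obtain ⟨t, ht⟩ : IsNilpotent D := by
    have hl : IsNilpotent (LinearMap.mulLeft K N) := by
      rw [LinearMap.isNilpotent_mulLeft_iff]; exact ⟨s, hs⟩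
    have hr : IsNilpotent (LinearMap.mulRight K N) := by
      rw [LinearMap.isNilpotent_mulRight_iff]; exact ⟨s, hs⟩
    exact (LinearMap.commute_mulLeft_right N N).isNilpotent_sub hl hr
  have hFad : ∀ ψ : Module.End K H, Commute S ψ → ad ψ = D ψ := by
    intro ψ hψ
    show F * ψ - ψ * F = N * ψ - ψ * N
    rw [hFNS, add_mul, mul_add, hψ.eq]
    abel
  have hform : ∀ m : ℕ, Commute S (ad^[m] φ) ∧ ad^[m] φ = (D ^ m) φ := by
    intro m
    induction m with
    | zero => exact ⟨hφS, by simp⟩
    | succ m ih =>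
      rw [Function.iterate_succ_apply']
      constructor
      · rw [hFad _ ih.1]
        show Commute S (N * (ad^[m] φ) - (ad^[m] φ) * N)
        exact (hSN.mul_right ih.1).sub_right (ih.1.mul_right hSN)
      · rw [hFad _ ih.1, ih.2, pow_succ', Module.End.mul_apply]
  have hzero : ad^[t + 1] φ = 0 := by
    rw [(hform (t + 1)).2, pow_succ, ht, zero_mul]; rfl
  have hadφ : ad φ = 0 := hdesc _ hzero
  have hNφ : N * φ = φ * N := by
    have h1 : F * φ - φ * F = 0 := hadφ
    rw [hFNS, add_mul, mul_add, hφS.eq] at h1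
    have h2 : N * φ - φ * N = 0 := by rw [← h1]; abel
    exact sub_eq_zero.1 h2
  -- N = φ^m N^(m+1)
  have hpow : ∀ m : ℕ, N = φ ^ m * N ^ (m + 1) := by
    intro m
    induction m with
    | zero => simp
    | succ m ih =>
      have h3 : N = φ * N ^ 2 := by
        conv_lhs => rw [← hφN]
        rw [hNφ, mul_assoc, sq]
      have hcφ : Commute φ N := hNφ.symm
      calc N = φ ^ m * N ^ (m + 1) := ih
        _ = φ ^ m * (N ^ m * N) := by rw [pow_succ]
        _ = φ ^ m * (N ^ m * (φ * N ^ 2)) := by rw [← h3]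
        _ = φ ^ m * (φ * N ^ m * N ^ 2) := by
            rw [← mul_assoc (N ^ m), (hcφ.pow_right m).eq]
        _ = φ ^ (m + 1) * N ^ (m + 1 + 1) := by
            rw [pow_succ φ m, show m + 1 + 1 = m + 2 by ring, pow_add N m 2]
            simp only [mul_assoc]
  have hN0 : N = 0 := by
    rw [hpow s, pow_succ, hs, zero_mul, mul_zero]
  rw [hFNS, hN0, zero_add]
  exact hss

end Pool.Agent.LibDL68.LA
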